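import Pool.Agent.K9h19.CR.Asm
import Pool.Agent.K9h19.CR.QU7

set_option autoImplicit false

/-!
# `n = p + m²` with `m` among the `h log n` largest possible integers, for almost all `n`

For `n = p + m²` consider only the `J` integers `m` with `⌊√n⌋ - J ≤ m < ⌊√n⌋`, so `p ≤ 2 (J + 1) √n`. In every
interval `(X, X + H]`, `X^(3/5) ≤ H ≤ X`, the singular series `S(n)` (the product over the odd primes of `1 - (n/p) /
(p - 1)`) converges outside a set of `H / (log X)^A` integers `n`, and over the other `n`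

`∑ |#{⌊√n⌋ - J ≤ m < ⌊√n⌋ : n - m² prime} - S(n) ∑_m 1 / log (n - m²)|²`

is at most `2 · 10^8 H J / log X + H J² / (log X)^A`, for all `J` with `log X ≤ J ≤ √X / (log X)^D`, `J √X ≤ H` and
`H J^(2/3) ≥ X^(2/3) (log X)^D`. The first term is, up to the constant, the variance of independent events of the
probabilities `S(n) / log (n - m²)`, so the bound has the true order for `J ≤ (log X)^(A - 1)`.

In particular (second part) the expected number of representations with these `m` is correct up to `ε J / log X`, and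
there is one, for all but `ε H` of the `n`, as soon as `J ≥ h(ε) log X`; this is the shortest possible order of
magnitude. Third part: for every `ε` there is `h` such that for all but `ε H` of the `n` in `(X, X + H]`, `X^(2/3)
(log X)^D ≤ H ≤ X` (in particular for almost all even `n`), the least prime `p` for which `n - p` is a square is at
most `h √n log n`.

Proof (all in Lean, without any unproved hypothesis): write `n = s² + c`, `0 ≤ c ≤ 2 s`; then `n - (s - t)² =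
c + 2 s t - t²`. The mean square over `n` of the error term for the primes less a sieve model is an average over windows
`(k, k + 3 Y]` of the squares and is bounded, for the family of all these windows, by the circle method (the prime number
theorem in progressions in almost all short intervals, proved in `K9h19/CR`); the sums of the model over `t` are
compared with `S(n)` by the pair correlations of the model over the pairs `(2 s, c)`, and the weights are removed by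
partial summation in `t`.
-/

namespace Pool.Agent.Results.MP_d48457_nt.LeastPrime

open Finset Filter Topology

/-- `S = S(n)`: the products over the odd primes, in increasing order, of `1 - (n/p) / (p - 1)` converge to `S`
(`jacobiSym n p` is the Legendre symbol). -/
def IsSing (n : ℕ) (S : ℝ) : Prop :=
  Tendsto (fun z : ℕ => ∏ p ∈ (Icc 3 z).filter Nat.Prime, (1 - (jacobiSym (n : ℤ) p : ℝ) / ((p : ℝ) - 1))) atTop (𝓝 S)

/-- The number of the `m` with `⌊√n⌋ - J ≤ m < ⌊√n⌋` for which `n - m²` is prime, less the expected number. -/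
noncomputable def dev (n : ℕ) (S : ℝ) (J : ℕ) : ℝ :=
  (((Ico (Nat.sqrt n - J) (Nat.sqrt n)).filter (fun m : ℕ => (n - m ^ 2).Prime)).card : ℝ) -
    S * ∑ m ∈ Ico (Nat.sqrt n - J) (Nat.sqrt n), 1 / Real.log ((n - m ^ 2 : ℕ) : ℝ)

/-- The conclusion for one integer `n`. -/
def Good (ε : ℝ) (X J n : ℕ) : Prop :=
  ∃ S : ℝ, IsSing n S ∧ |dev n S J| ≤ ε * (J / Real.log X) ∧
    ∃ p m : ℕ, p.Prime ∧ n = p + m ^ 2 ∧ Nat.sqrt n - J ≤ m ∧ m < Nat.sqrt n ∧
      (p : ℝ) ≤ 2 * ((J : ℝ) + 1) * Real.sqrt n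

open Classical in
/-- The number of the `X < n ≤ X + H` for which the conclusion fails. -/
noncomputable def exceptions (ε : ℝ) (X H J : ℕ) : ℕ := ((Ioc X (X + H)).filter (fun n => ¬ Good ε X J n)).card

open Classical in
/-- The number of the `X < n ≤ X + H` which are not of the form `p + m²` with a prime `p ≤ h √n log n`. -/
noncomputable def late (h : ℝ) (X H : ℕ) : ℕ :=
  ((Ioc X (X + H)).filter (fun n : ℕ => ¬ ∃ p m : ℕ, p.Prime ∧ n = p + m ^ 2 ∧
    (p : ℝ) ≤ h * (Real.sqrt n * Real.log n))).card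

lemma isSing_iff (n : ℕ) (S : ℝ) :
    IsSing n S ↔ Tendsto (fun z : ℕ => Pool.Agent.K9h19.CR.Szn n z) atTop (𝓝 S) := by
  unfold IsSing
  have e : (fun z : ℕ => Pool.Agent.K9h19.CR.Szn n z) =
      (fun z : ℕ => ∏ p ∈ (Icc 3 z).filter Nat.Prime, (1 - (jacobiSym (n : ℤ) p : ℝ) / ((p : ℝ) - 1))) := by
    funext z
    unfold Pool.Agent.K9h19.CR.Szn
    rw [Pool.Agent.R460.SB.Sz_leg, neg_neg]
  rw [e]

lemma window {J n : ℕ} (hJ : J ≤ Nat.sqrt n) :
    Ico (Nat.sqrt n - J) (Nat.sqrt n) = (Icc 1 J).image (fun t => Nat.sqrt n - t) := by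
  ext m
  rw [mem_Ico, mem_image]
  constructor
  · rintro ⟨h1, h2⟩
    refine ⟨Nat.sqrt n - m, ?_, ?_⟩
    · rw [mem_Icc]
      omega
    · omega
  · rintro ⟨t, ht, rfl⟩
    rw [mem_Icc] at ht
    omega

lemma inj {J n : ℕ} (hJ : J ≤ Nat.sqrt n) : Set.InjOn (fun t => Nat.sqrt n - t) (Icc 1 J : Finset ℕ) := by
  intro a ha b hb hab
  rw [mem_coe, mem_Icc] at ha hb
  have : Nat.sqrt n - a = Nat.sqrt n - b := hab
  omega

lemma dev_eq {J n : ℕ} (S : ℝ) (hJ : J ≤ Nat.sqrt n) : dev n S J = Pool.Agent.K9h19.CR.devn S J n := by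
  unfold dev Pool.Agent.K9h19.CR.devn
  rw [window hJ, Finset.sum_image (inj hJ), Finset.filter_image,
    Finset.card_image_of_injOn ((inj hJ).mono (by
      intro t ht
      rw [mem_coe, mem_filter] at ht
      rw [mem_coe]
      exact ht.1))]

lemma sqrt_ge {X J n : ℕ} {x : ℝ} (hx : x = Real.sqrt X) (hJ : (J : ℝ) ≤ x) (hn : X < n) : J ≤ Nat.sqrt n := by
  rw [Nat.le_sqrt']
  have h1 : (J : ℝ) ^ 2 ≤ x ^ 2 := pow_le_pow_left₀ (Nat.cast_nonneg _) hJ 2
  rw [hx, Real.sq_sqrt (Nat.cast_nonneg _)] at h1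
  have h2 : J ^ 2 ≤ X := by exact_mod_cast h1
  omega

lemma prime_le {J n t : ℕ} (ht : t ∈ Icc 1 J) (hJ : J ≤ Nat.sqrt n) :
    ((n - (Nat.sqrt n - t) ^ 2 : ℕ) : ℝ) ≤ 2 * ((J : ℝ) + 1) * Real.sqrt n := by
  rw [mem_Icc] at ht
  obtain ⟨s, hs⟩ : ∃ s : ℕ, s = Nat.sqrt n := ⟨_, rfl⟩
  have h1 : n < (s + 1) ^ 2 := by rw [hs]; exact Nat.lt_succ_sqrt' n
  rw [← hs] at hJ ⊢
  have h2 : n - (s - t) ^ 2 ≤ 2 * (J + 1) * s := by
    obtain ⟨r, hr⟩ : ∃ r : ℕ, s = t + r := ⟨s - t, by omega⟩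
    have e1 : s - t = r := by omega
    rw [e1]
    have e2 : (s + 1) ^ 2 = r ^ 2 + (2 * (t + 1) * r + (t + 1) ^ 2) := by rw [hr]; ring
    have e3 : 2 * (t + 1) * s = 2 * (t + 1) * r + 2 * (t + 1) * t := by rw [hr]; ring
    have h3 : (t + 1) ^ 2 ≤ 2 * (t + 1) * t := by
      calc (t + 1) ^ 2 = (t + 1) * (t + 1) := by ring
        _ ≤ (t + 1) * (2 * t) := Nat.mul_le_mul_left _ (by omega)
        _ = 2 * (t + 1) * t := by ring
    have h4 : 2 * (t + 1) * s ≤ 2 * (J + 1) * s := Nat.mul_le_mul_right _ (by omega)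
    omega
  calc ((n - (s - t) ^ 2 : ℕ) : ℝ) ≤ ((2 * (J + 1) * s : ℕ) : ℝ) := by exact_mod_cast h2
    _ = 2 * ((J : ℝ) + 1) * s := by push_cast; ring
    _ ≤ 2 * ((J : ℝ) + 1) * Real.sqrt n := by
        apply mul_le_mul_of_nonneg_left _ (by positivity)
        rw [hs]
        exact Real.nat_sqrt_le_real_sqrt

theorem almost : ∃ D : ℕ, ∀ ε : ℝ, 0 < ε → ∃ h : ℝ, 0 < h ∧ ∃ X₀ : ℕ, ∀ X : ℕ, X₀ ≤ X → ∀ H : ℕ, H ≤ X →
    ∀ J : ℕ, h * Real.log X ≤ J → J * Real.log X ^ D ≤ Real.sqrt X → J * Real.sqrt X ≤ H →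
      (X : ℝ) ^ (2 / 3 : ℝ) * Real.log X ^ D ≤ H * (J : ℝ) ^ (2 / 3 : ℝ) →
      (exceptions ε X H J : ℝ) ≤ ε * H := by
  classical
  obtain ⟨D, h0⟩ := Pool.Agent.K9h19.CR.quad_almost Pool.Agent.K9h19.CR.s_chr Pool.Agent.K9h19.CR.s_moc
  refine ⟨D, fun ε hε => ?_⟩
  obtain ⟨h, hh, X₀, h1⟩ := h0 ε hε
  refine ⟨h, hh, X₀, fun X hX H hHX J hJ hJD hJx hJH => ?_⟩
  obtain ⟨Bad, h2, h3⟩ := h1 X hX H hHX J hJ hJD hJx hJH
  refine le_trans ?_ h2
  have hsub : (Ioc X (X + H)).filter (fun n => ¬ Good ε X J n) ⊆ Bad := by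
    intro n hn
    rw [mem_filter] at hn
    obtain ⟨hn1, hn2⟩ := hn
    by_contra hB
    apply hn2
    obtain ⟨g1, g2, g3, t, ht, g4⟩ := h3 n hn1 hB
    have ht' := mem_Icc.1 ht
    have h5 : (Nat.sqrt n - t) ^ 2 ≤ n :=
      (Nat.pow_le_pow_left (Nat.sub_le _ _) 2).trans (Nat.sqrt_le' n)
    refine ⟨_, (isSing_iff n _).2 g1, by rw [dev_eq _ g3]; exact g2, n - (Nat.sqrt n - t) ^ 2, Nat.sqrt n - t, g4,
      by omega, by omega, by omega, prime_le ht g3⟩
  unfold exceptions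
  exact_mod_cast card_le_card hsub

theorem result :
    (∀ A : ℕ, ∃ D X₀ : ℕ, ∀ X : ℕ, X₀ ≤ X → ∀ H : ℕ, H ≤ X → (X : ℝ) ^ (3 / 5 : ℝ) ≤ H →
      ∃ E : Finset ℕ, (E.card : ℝ) ≤ H / Real.log X ^ A ∧ ∃ S : ℕ → ℝ,
        (∀ n ∈ Ioc X (X + H) \ E, IsSing n (S n)) ∧
        ∀ J : ℕ, Real.log X ≤ J → J * Real.log X ^ D ≤ Real.sqrt X → J * Real.sqrt X ≤ H →
          (X : ℝ) ^ (2 / 3 : ℝ) * Real.log X ^ D ≤ H * (J : ℝ) ^ (2 / 3 : ℝ) →
          ∑ n ∈ Ioc X (X + H) \ E, (dev n (S n) J) ^ 2 ≤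
            2 * 10 ^ 8 * (H * J / Real.log X) + H * (J : ℝ) ^ 2 / Real.log X ^ A) ∧
    (∃ D : ℕ, ∀ ε : ℝ, 0 < ε → ∃ h : ℝ, ∃ X₀ : ℕ, ∀ X : ℕ, X₀ ≤ X → ∀ H : ℕ, H ≤ X →
      ∀ J : ℕ, h * Real.log X ≤ J → J * Real.log X ^ D ≤ Real.sqrt X → J * Real.sqrt X ≤ H →
        (X : ℝ) ^ (2 / 3 : ℝ) * Real.log X ^ D ≤ H * (J : ℝ) ^ (2 / 3 : ℝ) →
        (exceptions ε X H J : ℝ) ≤ ε * H) ∧
    (∃ D : ℕ, ∀ ε : ℝ, 0 < ε → ∃ h : ℝ, ∃ X₀ : ℕ, ∀ X : ℕ, X₀ ≤ X → ∀ H : ℕ, H ≤ X →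
      (X : ℝ) ^ (2 / 3 : ℝ) * Real.log X ^ D ≤ H → (late h X H : ℝ) ≤ ε * H) := by
  classical
  refine ⟨?_, ?_, ?_⟩
  · intro A
    obtain ⟨D, _, X₀, h0⟩ := Pool.Agent.K9h19.CR.quad_var Pool.Agent.K9h19.CR.s_chr Pool.Agent.K9h19.CR.s_moc A
    refine ⟨D, X₀ + 3, fun X hX H hHX hXH => ?_⟩
    obtain ⟨E, h1, h2, _, h3⟩ := h0 X (by omega) H hHX hXH
    refine ⟨E, h1, Pool.Agent.K9h19.CR.SS, fun n hn => ?_, fun J hJ hJD hJx hJH => ?_⟩
    · rw [Finset.mem_sdiff] at hn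
      exact (isSing_iff n _).2 (h2 n hn.1 hn.2).2
    · refine le_trans (le_of_eq ?_) ((h3 J hJ hJD hJx hJH).trans (le_of_eq ?_))
      · apply Finset.sum_congr rfl
        intro n hn
        rw [Finset.mem_sdiff, mem_Ioc] at hn
        rw [dev_eq]
        apply sqrt_ge rfl _ hn.1.1
        have hL : 1 ≤ Real.log X := by
          have hX3 : (3 : ℝ) ≤ X := by exact_mod_cast (by omega : 3 ≤ X)
          rw [Real.le_log_iff_exp_le (by linarith)]
          have := Real.exp_one_lt_d9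
          linarith
        calc (J : ℝ) = J * 1 := (mul_one _).symm
          _ ≤ J * Real.log X ^ D := by
              apply mul_le_mul_of_nonneg_left _ (Nat.cast_nonneg _)
              exact one_le_pow₀ hL
          _ ≤ _ := hJD
      · norm_num
  · obtain ⟨D, h0⟩ := almost
    refine ⟨D, fun ε hε => ?_⟩
    obtain ⟨h, _, X₀, h1⟩ := h0 ε hε
    exact ⟨h, X₀, h1⟩
  · obtain ⟨D, h0⟩ := almost
    refine ⟨D + 2, fun ε hε => ?_⟩
    obtain ⟨h, hh, X₀, h1⟩ := h0 ε hε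
    obtain ⟨X₁, hX₁⟩ := Pool.Agent.K9h19.CR.ev_natlog (P := fun l => 10 + h + 1 / h ≤ l ∧
        1 * l ^ (D + 2) ≤ Real.exp (1 / 2 * l)) (by
      filter_upwards [eventually_ge_atTop (10 + h + 1 / h), Pool.Agent.K9h19.CR.ev_exp (1 / 2) 1 (D + 2) (by norm_num)]
        with l h1 h2
      exact ⟨h1, h2⟩)
    refine ⟨6 * h, X₀ + X₁ + 3, fun X hX H hHX hXH => ?_⟩
    obtain ⟨g1, g2⟩ := hX₁ X (by omega)
    have hX0 : (0 : ℝ) < X := by exact_mod_cast (by omega : 0 < X)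
    have hX1 : (1 : ℝ) ≤ X := by exact_mod_cast (by omega : 1 ≤ X)
    obtain ⟨L, hL⟩ : ∃ L : ℝ, L = Real.log X := ⟨_, rfl⟩
    obtain ⟨x, hx⟩ : ∃ x : ℝ, x = Real.sqrt X := ⟨_, rfl⟩
    have hxX : x ^ 2 = X := by rw [hx]; exact Real.sq_sqrt hX0.le
    have hx0 : 0 < x := by rw [hx]; exact Real.sqrt_pos.2 hX0
    have hxe : Real.exp (1 / 2 * Real.log X) = x := by
      rw [hx, Real.sqrt_eq_rpow, Real.rpow_def_of_pos hX0, mul_comm]
    rw [hxe, one_mul, ← hL] at g2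
    have hp : 0 < 1 / h := by positivity
    rw [← hL] at g1
    have hL10 : 10 ≤ L := by linarith
    have hLh : h ≤ L := by linarith
    have hL0 : 0 < L := by linarith
    have hL1 : 1 ≤ L := by linarith
    have hhL : 1 ≤ h * L := by
      have h2 : h * (1 / h) ≤ h * L := mul_le_mul_of_nonneg_left (by linarith) hh.le
      have e : h * (1 / h) = 1 := by field_simp
      linarith
    obtain ⟨J, hJ⟩ : ∃ J : ℕ, J = ⌈h * L⌉₊ := ⟨_, rfl⟩
    have hJ1 : h * L ≤ J := by rw [hJ]; exact Nat.le_ceil _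
    have hJ2 : (J : ℝ) < h * L + 1 := by rw [hJ]; exact Nat.ceil_lt_add_one (by positivity)
    have hJr : (1 : ℝ) ≤ J := by linarith
    have hJL2 : (J : ℝ) ≤ L ^ 2 * 2 := by
      have h2 : h * L ≤ L * L := mul_le_mul_of_nonneg_right hLh hL0.le
      have h3 : 1 ≤ L ^ 2 := one_le_pow₀ hL1
      have e : L * L = L ^ 2 := by ring
      linarith
    have hLD : 1 ≤ L ^ D := one_le_pow₀ hL1
    have hH0 : (0 : ℝ) ≤ H := Nat.cast_nonneg _
    rw [← hL] at hXH
    have h23 : x ≤ (X : ℝ) ^ (2 / 3 : ℝ) := by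
      rw [hx, Real.sqrt_eq_rpow]
      exact Real.rpow_le_rpow_of_exponent_le hX1 (by norm_num)
    -- a better bound for J
    have hJL3 : (J : ℝ) ≤ L ^ 2 := by
      have h2 : h ≤ L - 10 := by linarith
      have h3 : h * L ≤ (L - 10) * L := mul_le_mul_of_nonneg_right h2 hL0.le
      have e : (L - 10) * L = L ^ 2 - 10 * L := by ring
      linarith
    have h2 := h1 X (by omega) H hHX J (by rw [← hL]; exact hJ1) (by
      rw [← hL, ← hx]
      calc J * L ^ D ≤ L ^ 2 * L ^ D := by gcongr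
        _ = L ^ (D + 2) := by ring
        _ ≤ x := g2) (by
      rw [← hx]
      calc J * x ≤ L ^ 2 * (X : ℝ) ^ (2 / 3 : ℝ) := by gcongr
        _ ≤ (L ^ 2 * (X : ℝ) ^ (2 / 3 : ℝ)) * L ^ D := le_mul_of_one_le_right (by positivity) hLD
        _ = (X : ℝ) ^ (2 / 3 : ℝ) * L ^ (D + 2) := by ring
        _ ≤ H := hXH) (by
      rw [← hL]
      calc (X : ℝ) ^ (2 / 3 : ℝ) * L ^ D ≤ (X : ℝ) ^ (2 / 3 : ℝ) * L ^ (D + 2) := by
            apply mul_le_mul_of_nonneg_left _ (by positivity)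
            exact pow_le_pow_right₀ hL1 (by omega)
        _ ≤ H := hXH
        _ ≤ H * (J : ℝ) ^ (2 / 3 : ℝ) := by
            apply le_mul_of_one_le_right hH0
            exact Real.one_le_rpow hJr (by norm_num))
    refine le_trans ?_ h2
    have hsub : (Ioc X (X + H)).filter (fun n : ℕ => ¬ ∃ p m : ℕ, p.Prime ∧ n = p + m ^ 2 ∧
        (p : ℝ) ≤ 6 * h * (Real.sqrt n * Real.log n)) ⊆ (Ioc X (X + H)).filter (fun n => ¬ Good ε X J n) := by
      intro n hn
      rw [mem_filter] at hn ⊢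
      refine ⟨hn.1, fun hG => hn.2 ?_⟩
      obtain ⟨-, -, -, p, m, k1, k2, -, -, k5⟩ := hG
      refine ⟨p, m, k1, k2, k5.trans ?_⟩
      have hn1 := (mem_Ioc.1 hn.1).1
      have hn0 : (X : ℝ) ≤ n := by exact_mod_cast hn1.le
      have hlog : L ≤ Real.log n := by rw [hL]; exact Real.log_le_log hX0 hn0
      have hs0 : 0 ≤ Real.sqrt n := Real.sqrt_nonneg _
      calc 2 * ((J : ℝ) + 1) * Real.sqrt n ≤ 6 * (h * L) * Real.sqrt n := by
            apply mul_le_mul_of_nonneg_right _ hs0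
            linarith
        _ ≤ 6 * (h * Real.log n) * Real.sqrt n := by gcongr
        _ = 6 * h * (Real.sqrt n * Real.log n) := by ring
    unfold late exceptions
    exact_mod_cast card_le_card hsub

end Pool.Agent.Results.MP_d48457_nt.LeastPrime
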