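import Pool.Agent.K9h54.LW.D

set_option autoImplicit false

/-!
# The joint limit law of the numbers of representations as a prime plus a square

For distinct `s_1, …, s_k ≥ 0` the vectors of the normalised numbers of representations of `n + s_1, …, n + s_k` as a
prime plus a square have a limit law. It is the law of the vectors of the singular series, it has continuous marginals,
no mass at `0` or `∞`, and full support in `(0, ∞)^k`: every box has positive probability. The convergence is uniform in
all boxes; it holds in every residue class of every modulus `q ≤ N^(1/2 - μ)` with few divisors and with a small sum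
of `1 / p` over its odd prime factors (in particular for `n` even, and for all even shifts), and for the
representations `n = p + m²` with `m` in every interval of length at least `κ √n` simultaneously.

Proof. Almost all members of the residue class have the expected number of representations in all intervals, with the
truncated singular series (starting file `R460.SQ.fin_sq`, circle method and dispersion); the truncated singular series
is near a product over bounded primes for almost all members (second moment, starting file `N511.LL.B`); the limit law of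
these products, its continuity and its full support are from the starting files `N511.LL`, where they were used for the
primes `x² + x + A`.
-/

namespace Pool.Agent.Results.MP_d48457_nt.RepresentationLaw

open Finset

/-- The number of the `m` with `u < m ≤ v` for which `n - m²` is prime. -/
def rep (n u v : ℕ) : ℕ := #((Ioc u v).filter (fun m => (n - m ^ 2).Prime))

/-- `(u, v]` is an interval of length at least `κ √n`, with `v² < n`. -/
def Long (κ : ℝ) (n u v : ℕ) : Prop := u < v ∧ v ^ 2 < n ∧ κ * √(n : ℝ) ≤ (v : ℝ) - u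

/-- The normalised number of the `m` in the interval with `n - m²` prime is in `(a, b]`, for all long intervals. -/
def Between (κ a b : ℝ) (n : ℕ) : Prop := ∀ u v : ℕ, Long κ n u v →
  a * ((v : ℝ) - u) < rep n u v * Real.log n ∧ (rep n u v : ℝ) * Real.log n ≤ b * ((v : ℝ) - u)

/-- The singular series of `n = p + m²`, truncated at `y`. -/
noncomputable def S (n y : ℕ) : ℝ :=
  ∏ p ∈ (Icc 3 y).filter Nat.Prime, (1 - (jacobiSym (n : ℤ) p : ℝ) / ((p : ℝ) - 1))

/-- The product of the odd primes `p ≤ y`. -/
def Q (y : ℕ) : ℕ := ∏ p ∈ (Icc 3 y).filter Nat.Prime, p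

open Classical in
/-- The proportion of the residue classes `n` modulo `Q y` with `α j < S (n + s j) y ≤ β j` for all `j`. -/
noncomputable def proportion {k : ℕ} (s : Fin k → ℕ) (y : ℕ) (α β : Fin k → ℝ) : ℝ :=
  (#((range (Q y)).filter (fun n : ℕ => ∀ j, α j < S (n + s j) y ∧ S (n + s j) y ≤ β j)) : ℝ) / Q y

open Classical in
/-- **Joint limit law.** For distinct shifts `s j` there is a function `ρ` of boxes `∏ (α j, β j]`, the uniform limit of
the proportions above, positive on the boxes with `α j < β j`, `0 < β j`, small on thin boxes (`β j ≤ (1 + δ) α j` for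
one `j`) and near `1` on large boxes, such that: for `0 < κ < 1` and `ε > 0` there is `δ > 0` such that for all `μ > 0`
and `A` and all large `N`, for all moduli `1 ≤ q ≤ N^(1/2 - μ)` with at most `(log N)^A` divisors and
`∑_{p ∣ q, p > 2} 1/p ≤ δ`, all `b` with `gcd(b + s j, q) ≤ (log N)^A` and all boxes, the number of the `n ≤ N`,
`n ≡ b (mod q)`, for which the normalised numbers of representations of `n + s j` are in `(α j, β j]` for all `j` and
all long intervals, differs from `ρ(α, β) N / q` by at most `ε N / q`. -/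
theorem result (k : ℕ) (s : Fin k → ℕ) (hs : Function.Injective s) :
    ∃ ρ : (Fin k → ℝ) → (Fin k → ℝ) → ℝ,
      (∀ α β : Fin k → ℝ, (∀ j, α j < β j) → (∀ j, 0 < β j) → 0 < ρ α β) ∧
      (∀ ε : ℝ, 0 < ε → ∃ δ : ℝ, 0 < δ ∧ ∀ (α β : Fin k → ℝ) (j : Fin k), 0 < α j → β j ≤ (1 + δ) * α j → ρ α β ≤ ε) ∧
      (∀ ε : ℝ, 0 < ε → ∃ K : ℝ, 0 < K ∧ ∀ α β : Fin k → ℝ, (∀ j, α j ≤ 1 / K) → (∀ j, K ≤ β j) → 1 - ε ≤ ρ α β) ∧
      (∀ ε : ℝ, 0 < ε → ∃ y₀ : ℕ, ∀ y : ℕ, y₀ ≤ y → ∀ α β : Fin k → ℝ, |proportion s y α β - ρ α β| ≤ ε) ∧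
      ∀ κ ε : ℝ, 0 < κ → κ < 1 → 0 < ε → ∃ δ : ℝ, 0 < δ ∧ ∀ (μ : ℝ) (A : ℕ), 0 < μ → ∃ N₀ : ℕ, ∀ N : ℕ, N₀ ≤ N →
      ∀ q : ℕ, 1 ≤ q → (q : ℝ) ≤ (N : ℝ) ^ (1 / 2 - μ) → (q.divisors.card : ℝ) ≤ Real.log N ^ A →
      ∑ p ∈ q.primeFactors.filter (fun p => 2 < p), (1 : ℝ) / p ≤ δ →
      ∀ b : ℕ, (∀ j, (Nat.gcd (b + s j) q : ℝ) ≤ Real.log N ^ A) → ∀ α β : Fin k → ℝ,
        |(#((Icc 1 N).filter (fun n => n ≡ b [MOD q] ∧ ∀ j, Between κ (α j) (β j) (n + s j))) : ℝ) - ρ α β * (N / q)| ≤
          ε * (N / q) := by
  obtain ⟨ρ, h1, h2, h3, h4, h5⟩ := Pool.Agent.K9h54.LW.law k s hs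
  refine ⟨ρ, h1, h2, h3, fun ε hε => ?_, h5⟩
  obtain ⟨y₀, hy⟩ := h4 ε hε
  refine ⟨y₀, fun y hy0 α β => ?_⟩
  have h := hy y hy0 α β
  have e : Pool.Agent.N511.LL.Gb y (fun j => (s j : ℤ)) α β = proportion s y α β := by
    have h6 : (range (Pool.Agent.N511.LL.Q y)).filter (fun d : ℕ =>
        Pool.Agent.N511.LL.InBox y (fun j => (s j : ℤ)) α β (d : ℤ)) =
        (range (Q y)).filter (fun n : ℕ => ∀ j, α j < S (n + s j) y ∧ S (n + s j) y ≤ β j) := by
      refine filter_congr fun d _ => ?_
      unfold Pool.Agent.N511.LL.InBox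
      refine forall_congr' fun j => ?_
      have h7 : Pool.Agent.N511.LL.T ((d : ℤ) + (s j : ℤ)) y = S (d + s j) y := by
        unfold Pool.Agent.N511.LL.T S
        rw [Nat.cast_add]
        rfl
      rw [h7]
    unfold Pool.Agent.N511.LL.Gb proportion
    rw [h6]
    rfl
  rw [e] at h
  exact h

end Pool.Agent.Results.MP_d48457_nt.RepresentationLaw
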