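import Pool.Agent.K9h59.CF.Fq

set_option autoImplicit false

/-!
# Almost all integers with restricted digits are sums of a prime and a square

Fix a base `g` and, for every place `i < k`, a set `D i` of digits which consists of `T i` blocks of consecutive digits
and has more than `(11 + 2 log g) √g T i` elements. Let `S` be the set of the integers `0 ≤ v < g ^ k` whose `i`-th digit
belongs to `D i` for all `i < k`; it may have only `g ^ (k (1 / 2 + ε))` elements. For every `g ^ k ≤ c₀ ≤ K g ^ k`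
(for instance `c₀ = d g ^ k`, `d` a leading digit), with `X = (K + 1) g ^ k`: all but at most `|S| / (log X)^A` of the
integers `n ∈ c₀ + S` are sums of a prime and a square, the singular series `𝔖(n)` of Hardy and Littlewood converges to a
positive number, and for all `y < √n`

`∑_{m ≤ y, n - m² prime} log (n - m²) = 𝔖(n) y + O(√X / (log X)^C)`.

Proof (`K9h59/CF`). The kernel `∑_{v ∈ S} e(v θ)` is a product over the places, and its mean over the points
`τ + t / M` is at most `|S| M ^ κ` with `κ < 1 / 2`, with a similar bound on the major arcs (`Ker`, `Ker2`). By a bound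
of Schur for this kernel and by the inequality of Weyl, the mean square over `c₀ + S` of the number of the
representations `n = l + m²`, weighted by the difference of the function of von Mangoldt and its model at `l`, is small
(`Mean`, `Mean2`). The tail of the singular series is small for all but `X ^ (1 / 2 + ε)` integers `n` (`TlA`, `TlB`).
-/

namespace Pool.Agent.Results.MP_d48457_nt.RestrictedDigitsTargets

open Finset Filter Topology

/-- The singular series of `n = p + m²`, over the primes `p ≤ z` (`jacobiSym n p` is the Legendre symbol). -/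
noncomputable def Sing (n z : ℕ) : ℝ :=
  ∏ p ∈ (Icc 3 z).filter Nat.Prime, (1 - (jacobiSym n p : ℝ) / ((p : ℝ) - 1))

/-- The sum of `log p` over the solutions of `n = p + m²` with `p` prime and `1 ≤ m ≤ y`. -/
noncomputable def Rep (n y : ℕ) : ℝ :=
  ∑ m ∈ Icc 1 y, if (n - m ^ 2).Prime then Real.log ((n - m ^ 2 : ℕ) : ℝ) else 0

/-- The conclusion for one integer `n`. -/
def Good (C X n : ℕ) : Prop :=
  (∃ p m : ℕ, p.Prime ∧ n = p + m ^ 2) ∧
  ∃ S : ℝ, 0 < S ∧ Tendsto (Sing n) atTop (𝓝 S) ∧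
    ∀ y : ℕ, y ^ 2 < n → |Rep n y - S * y| ≤ Real.sqrt X / Real.log X ^ C

/-- The number of the blocks of consecutive elements of `D`. -/
def blocks (D : Finset ℕ) : ℕ := (D.filter (fun x => x + 1 ∉ D)).card

/-- The integers `0 ≤ v < g ^ k` whose `i`-th digit in base `g` belongs to `D i` for all `i < k`. -/
def restricted (g : ℕ) (D : ℕ → Finset ℕ) (k : ℕ) : Finset ℕ :=
  (range (g ^ k)).filter (fun v : ℕ => ∀ i < k, v / g ^ i % g ∈ D i)

open Classical in
/-- The number of the `v ∈ S` for which the conclusion fails for `n = c₀ + v`. -/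
noncomputable def exceptions (C X c₀ : ℕ) (S : Finset ℕ) : ℕ := (S.filter (fun v : ℕ => ¬ Good C X (c₀ + v))).card

/-- one exponent for all digit sets -/
lemma exponent (g : ℕ) (hg : 1 ≤ g) : ∃ κ : ℝ, 0 ≤ κ ∧ κ < 1 / 2 ∧ ∀ t n : ℕ, t ≤ g → n ≤ g →
    (11 + 2 * Real.log g) * Real.sqrt g * t < n → (t : ℝ) * (g * (11 + 2 * Real.log g)) ≤ n * (g : ℝ) ^ κ := by
  have hg0 : (0 : ℝ) < g := by exact_mod_cast hg
  have h1 : ∀ t ∈ range (g + 1), ∀ n ∈ range (g + 1), ∀ᶠ η in 𝓝[>] (0 : ℝ),
      ((11 + 2 * Real.log g) * Real.sqrt g * t < n → (t : ℝ) * (g * (11 + 2 * Real.log g)) ≤ n * (g : ℝ) ^ (1 / 2 - η)) := by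
    intro t _ n _
    by_cases h : (11 + 2 * Real.log g) * Real.sqrt g * t < n
    · have hs0 : 0 < Real.sqrt g := Real.sqrt_pos.2 hg0
      have hss : Real.sqrt g * Real.sqrt g = g := Real.mul_self_sqrt hg0.le
      have h2 : (t : ℝ) * (g * (11 + 2 * Real.log g)) < n * (g : ℝ) ^ (1 / 2 - (0 : ℝ)) := by
        rw [sub_zero, ← Real.sqrt_eq_rpow]
        calc (t : ℝ) * (g * (11 + 2 * Real.log g)) = ((11 + 2 * Real.log g) * Real.sqrt g * t) * Real.sqrt g := by
              rw [← hss, Real.sqrt_mul_self hs0.le]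
              ring
          _ < n * Real.sqrt g := mul_lt_mul_of_pos_right h hs0
      have h3 : Continuous (fun η : ℝ => (n : ℝ) * (g : ℝ) ^ (1 / 2 - η)) := by
        apply Continuous.mul continuous_const
        exact Continuous.rpow continuous_const (continuous_const.sub continuous_id) (fun _ => Or.inl hg0.ne')
      have h4 : ∀ᶠ η in 𝓝 (0 : ℝ), (t : ℝ) * (g * (11 + 2 * Real.log g)) < n * (g : ℝ) ^ (1 / 2 - η) :=
        h3.continuousAt.eventually (lt_mem_nhds h2)
      filter_upwards [nhdsWithin_le_nhds h4] with η hη _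
      exact hη.le
    · exact Eventually.of_forall fun η h' => absurd h' h
  have h2 : ∀ᶠ η in 𝓝[>] (0 : ℝ), ∀ t ∈ range (g + 1), ∀ n ∈ range (g + 1),
      ((11 + 2 * Real.log g) * Real.sqrt g * t < n → (t : ℝ) * (g * (11 + 2 * Real.log g)) ≤ n * (g : ℝ) ^ (1 / 2 - η)) := by
    rw [Filter.eventually_all_finset]
    intro t ht
    rw [Filter.eventually_all_finset]
    intro n hn
    exact h1 t ht n hn
  have h3 : ∀ᶠ η in 𝓝[>] (0 : ℝ), η < 1 / 2 := nhdsWithin_le_nhds (gt_mem_nhds (by norm_num))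
  obtain ⟨η, h4, h5, h6⟩ := (h2.and (h3.and self_mem_nhdsWithin)).exists
  have h7 : 0 < η := h6
  exact ⟨1 / 2 - η, by linarith, by linarith, fun t n ht hn => h4 t (mem_range.2 (by omega)) n (mem_range.2 (by omega))⟩

theorem result (g A C K : ℕ) :
    ∃ k₀ : ℕ, ∀ k : ℕ, k₀ ≤ k → ∀ D : ℕ → Finset ℕ,
      (∀ i < k, D i ⊆ range g ∧ (11 + 2 * Real.log g) * Real.sqrt g * blocks (D i) < (D i).card) →
      ∀ c₀ : ℕ, g ^ k ≤ c₀ → c₀ ≤ K * g ^ k →
        (exceptions C ((K + 1) * g ^ k) c₀ (restricted g D k) : ℝ) ≤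
          (restricted g D k).card / Real.log (((K + 1) * g ^ k : ℕ) : ℝ) ^ A := by
  classical
  rcases Nat.eq_zero_or_pos g with hg | hg
  · refine ⟨1, fun k hk D hD => ?_⟩
    have h1 := hD 0 (by omega)
    have h2 : D 0 = ∅ := by
      have h3 := h1.1
      rw [hg, range_zero, subset_empty] at h3
      exact h3
    have h3 := h1.2
    rw [h2, hg] at h3
    simp at h3
  obtain ⟨κ, hκ0, hκ1, hκ⟩ := exponent g hg
  obtain ⟨k₀, h0⟩ := Pool.Agent.K9h59.CF.dig_sq (g := g) κ hκ0 hκ1 A C K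
  refine ⟨k₀ + 1, fun k hk D hD c₀ hc₁ hc₀ => ?_⟩
  have hlog : 0 ≤ Real.log g := Real.log_natCast_nonneg _
  have hne : ∀ i < k, (D i).Nonempty := by
    intro i hi
    have h1 := (hD i hi).2
    have h2 : (0 : ℝ) ≤ (11 + 2 * Real.log g) * Real.sqrt g * blocks (D i) := by positivity
    have h3 : (0 : ℝ) < (D i).card := lt_of_le_of_lt h2 h1
    exact card_pos.1 (by exact_mod_cast h3)
  have hcard : ∀ i < k, (D i).card ≤ g := by
    intro i hi
    have := card_le_card (hD i hi).1
    rwa [card_range] at this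
  have hbl : ∀ i, blocks (D i) ≤ (D i).card := fun i => card_le_card (filter_subset _ _)
  have hbr : ∀ i, Pool.Agent.K9h59.CF.br (D i) = blocks (D i) := fun i => rfl
  have hg3 : 3 ≤ g := by
    have h1 := (hD 0 (by omega)).2
    have h2 : 1 ≤ blocks (D 0) := Pool.Agent.K9h59.CF.br_pos (hne 0 (by omega))
    have h3 : (1 : ℝ) ≤ blocks (D 0) := by exact_mod_cast h2
    have h4 : ((D 0).card : ℝ) ≤ g := by exact_mod_cast hcard 0 (by omega)
    have h5 : (1 : ℝ) ≤ g := by exact_mod_cast hg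
    have h6 : 1 ≤ Real.sqrt g := Real.one_le_sqrt.2 h5
    have h7 : (11 : ℝ) * 1 * 1 ≤ (11 + 2 * Real.log g) * Real.sqrt g * blocks (D 0) := by
      have : (11 : ℝ) ≤ 11 + 2 * Real.log g := by linarith
      gcongr
    have h8 : (3 : ℝ) ≤ g := by linarith
    exact_mod_cast h8
  have hDg : Pool.Agent.K9h59.CF.Dg g k κ D := by
    refine ⟨hg3, fun i hi => (hD i hi).1, hne, hκ0, fun i hi => ?_⟩
    rw [hbr]
    exact hκ _ _ ((hbl i).trans (hcard i hi)) (hcard i hi) (hD i hi).2
  have h2 := h0 k (by omega) D hDg c₀ hc₁ hc₀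
  have hS : restricted g D k = Pool.Agent.K9h59.CF.S g D k := rfl
  rw [hS]
  refine le_trans ?_ h2
  unfold exceptions
  obtain ⟨X, hX⟩ : ∃ X, X = (K + 1) * g ^ k := ⟨_, rfl⟩
  rw [← hX]
  have hgd : ∀ n : ℕ, Pool.Agent.K9h59.CF.GoodN C X (n : ℤ) → Good C X n := by
    intro n hn
    obtain ⟨⟨m, g1, g2, g3⟩, S, g4, g5, g6⟩ := hn
    rw [Pool.Agent.K9h59.CF.fv_sq] at g3
    have g2' : m ^ 2 < n := by exact_mod_cast g2
    have e1 : ((n : ℤ) - (m : ℤ) ^ 2).natAbs = n - m ^ 2 := by
      have : ((n : ℤ) - (m : ℤ) ^ 2) = ((n - m ^ 2 : ℕ) : ℤ) := by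
        rw [Nat.cast_sub g2'.le]
        push_cast
        rfl
      rw [this, Int.natAbs_natCast]
    rw [e1] at g3
    refine ⟨⟨n - m ^ 2, m, g3, by omega⟩, S, g4, ?_, fun y hy => ?_⟩
    · refine g5.congr fun z => ?_
      rw [Pool.Agent.K9h59.CF.Sz_sq]
      rfl
    · have h6 := g6 y (by exact_mod_cast hy)
      have e2 : Rep n y = ∑ m ∈ Icc 1 y, Pool.Agent.R460.SQ.thp (Pool.Agent.R460.SB.fv 1 0 (n : ℤ) m).natAbs := by
        unfold Rep
        refine sum_congr rfl fun m hm => ?_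
        rw [mem_Icc] at hm
        have h7 : m ^ 2 ≤ y ^ 2 := Nat.pow_le_pow_left hm.2 2
        have e3 : (Pool.Agent.R460.SB.fv 1 0 (n : ℤ) m).natAbs = n - m ^ 2 := by
          rw [Pool.Agent.K9h59.CF.fv_sq]
          have : ((n : ℤ) - (m : ℤ) ^ 2) = ((n - m ^ 2 : ℕ) : ℤ) := by
            rw [Nat.cast_sub (by omega)]
            push_cast
            rfl
          rw [this, Int.natAbs_natCast]
        rw [e3]
        rfl
      rw [e2]
      exact h6
  have hsub : (Pool.Agent.K9h59.CF.S g D k).filter (fun v : ℕ => ¬ Good C X (c₀ + v)) ⊆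
      (Pool.Agent.K9h59.CF.S g D k).filter (fun v : ℕ => ¬ Pool.Agent.K9h59.CF.GoodN C X ((c₀ : ℤ) + (v : ℤ))) := by
    intro v hv
    rw [mem_filter] at hv ⊢
    refine ⟨hv.1, fun h => hv.2 (hgd _ ?_)⟩
    push_cast
    exact h
  exact_mod_cast card_le_card hsub

end Pool.Agent.Results.MP_d48457_nt.RestrictedDigitsTargets
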