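import Pool.Agent.K9h54.SQ.B6
import Pool.Agent.H373R2.T7.BilE

set_option autoImplicit false

/-!
# Almost all numbers minus the squares from an arbitrary set: primes occur as often as rough numbers

Let `M` be any set of integers `0 ≤ m ≤ √N` whose squares have nearly minimal additive energy of some order `h`:
at most `(log N)^C #M^(2h) / N` solutions of `m₁² + ⋯ + m_h² = m_{h+1}² + ⋯ + m_{2h}²` in `M`. Every set with at least
`√N / (log N)^K` elements has this property (`dense` below). Then for all but `N^k / (log N)^A` of the `k`-tuples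
`(n_1, …, n_k)` of positive integers up to `N`, and all `y` at once, the number of the `m ∈ M`, `m ≤ y`, such that all the
numbers `n_i - m²` are primes is equal to the expected number up to `#M / (log N)^A`. The expected number is the sum, over
the `m ∈ M`, `m ≤ y`, such that no `n_i - m²` has a prime factor `≤ z` (`z` any fixed large power of `log N`), of
the product of `1 / (V(z) log (n_i - m²))`, `V(z) = ∏_{p ≤ z} (1 - 1/p)`.

Proof: the exponential sums of von Mangoldt's function minus its sieve model are `O(N / (log N)^U)`, by the circle method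
with the Siegel-Walfisz theorem and Vinogradov's estimate. With the `2h`-th moment of the exponential sum over the squares
of the elements of `M`, and arbitrary bounded coefficients, this gives a bilinear estimate; the tuples are treated by
telescoping.
-/

namespace Pool.Agent.Results.MP_d48457_nt.SquaresFromAnySet

open Finset

/-- The number of the solutions of `m₁² + ⋯ + m_h² = m_{h+1}² + ⋯ + m_{2h}²` in elements of `M`. -/
def energy (h : ℕ) (M : Finset ℕ) : ℕ :=
  #(((Fintype.piFinset fun _ : Fin h => M) ×ˢ (Fintype.piFinset fun _ : Fin h => M)).filter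
    (fun v => ∑ i, v.1 i ^ 2 = ∑ i, v.2 i ^ 2))

/-- The number of the `m ∈ M`, `m ≤ y`, such that all the numbers `n_i - m²` are primes. -/
def rep {k : ℕ} (M : Finset ℕ) (n : Fin k → ℕ) (y : ℕ) : ℕ :=
  #(M.filter (fun m => m ≤ y ∧ ∀ i, (n i - m ^ 2).Prime))

/-- `V(z)`, the product of `1 - 1/p` over the primes `p ≤ z`. -/
noncomputable def V (z : ℕ) : ℝ := ∏ p ∈ (Icc 1 z).filter Nat.Prime, (1 - 1 / (p : ℝ))

/-- The elements `m ≤ y` of `M` such that all the numbers `n_i - m²` are at least `2` and free of prime factors `≤ z`. -/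
def rough {k : ℕ} (M : Finset ℕ) (n : Fin k → ℕ) (z y : ℕ) : Finset ℕ :=
  M.filter (fun m => m ≤ y ∧ ∀ i, m ^ 2 + 2 ≤ n i ∧ ∀ p ∈ (Icc 1 z).filter Nat.Prime, ¬ p ∣ n i - m ^ 2)

/-- The expected number: the sum of `∏_i 1 / (V(z) log (n_i - m²))` over the `m` in `rough M n z y`. -/
noncomputable def expected {k : ℕ} (M : Finset ℕ) (n : Fin k → ℕ) (z y : ℕ) : ℝ :=
  ∑ m ∈ rough M n z y, ∏ i, 1 / (V z * Real.log ((n i - m ^ 2 : ℕ) : ℝ))

open Classical in
/-- For every set `M` of integers `0 ≤ m ≤ √N` whose squares have nearly minimal additive energy of order `h`, for all but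
at most `N^k / (log N)^A` of the `k`-tuples `n` of positive integers up to `N`, for all `y`, the number of the `m ∈ M`,
`m ≤ y`, such that all `n_i - m²` are primes differs from the expected number by at most `#M / (log N)^A`. -/
theorem result (k h C A : ℕ) : ∃ B : ℕ, ∀ E : ℕ, ∃ N₀ : ℕ, ∀ N : ℕ, N₀ ≤ N →
    ∀ z : ℕ, Real.log N ^ B ≤ z → (z : ℝ) ≤ Real.log N ^ E →
    ∀ M : Finset ℕ, (∀ m ∈ M, m ^ 2 ≤ N) → (energy h M : ℝ) * N ≤ Real.log N ^ C * (#M : ℝ) ^ (2 * h) →
    (#((Fintype.piFinset (fun _ : Fin k => Icc 1 N)).filter (fun n => ¬ ∀ y : ℕ,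
      |(rep M n y : ℝ) - expected M n z y| ≤ #M / Real.log N ^ A)) : ℝ) ≤ (N : ℝ) ^ k / Real.log N ^ A :=
  Pool.Agent.K9h54.SQ.sets k h C A

open Polynomial in
/-- Dense sets satisfy the condition on the energy, for suitable `h` and `C`. -/
theorem dense : ∃ h : ℕ, ∀ K : ℕ, ∃ C N₁ : ℕ, ∀ N : ℕ, N₁ ≤ N → ∀ M : Finset ℕ, (∀ m ∈ M, 1 ≤ m ∧ m ^ 2 ≤ N) →
    √(N : ℝ) ≤ Real.log N ^ K * #M → (energy h M : ℝ) * N ≤ Real.log N ^ C * (#M : ℝ) ^ (2 * h) := by
  have hdeg : (X ^ 2 : ℤ[X]).natDegree = 2 := natDegree_X_pow 2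
  obtain ⟨p, C0, hC0, hE⟩ := Pool.Agent.H373R2.T7.energy_poly (X ^ 2 : ℤ[X]) (by rw [hdeg]; norm_num)
    (by rw [leadingCoeff_X_pow]; norm_num)
  refine ⟨p, fun K => ?_⟩
  obtain ⟨m3, h3⟩ := Pool.Agent.H373R2.T7.ev_L' (4 * C0 + 1)
  refine ⟨2 * p * K + 1, max m3 1, fun N hN M hM hd => ?_⟩
  have hL := h3 N (le_trans (le_max_left _ _) hN)
  have hN1 : 1 ≤ N := le_trans (le_max_right _ _) hN
  set L := Real.log N with hLd
  have hL0 : 0 < L := by linarith
  set x := Nat.sqrt N with hx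
  have hx1 : 1 ≤ x := by
    rw [hx, Nat.le_sqrt]
    omega
  have hx0 : (1 : ℝ) ≤ x := by exact_mod_cast hx1
  have h1 : (energy p M : ℝ) ≤ Pool.Agent.H373R2.T7.energy p x (fun m => (X ^ 2 : ℤ[X]).eval (m : ℤ)) := by
    have : energy p M ≤ Pool.Agent.H373R2.T7.energy p x (fun m => (X ^ 2 : ℤ[X]).eval (m : ℤ)) := by
      unfold energy Pool.Agent.H373R2.T7.energy
      apply card_le_card
      intro v hv
      rw [mem_filter, mem_product, Fintype.mem_piFinset, Fintype.mem_piFinset] at hv ⊢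
      have hM' : ∀ m ∈ M, m ∈ Icc 1 x := by
        intro m hm
        rw [mem_Icc]
        refine ⟨(hM m hm).1, ?_⟩
        rw [hx, Nat.le_sqrt, ← pow_two]
        exact (hM m hm).2
      refine ⟨⟨fun i => hM' _ (hv.1.1 i), fun i => hM' _ (hv.1.2 i)⟩, ?_⟩
      have h2 := hv.2
      simp only [eval_pow, eval_X]
      exact_mod_cast h2
    exact_mod_cast this
  have h2 := hE x hx1
  rw [hdeg] at h2
  have hNx : (N : ℝ) ≤ 4 * (x : ℝ) ^ 2 := by
    have h4 : N < (x + 1) * (x + 1) := Nat.lt_succ_sqrt N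
    have h5 : (N : ℝ) < (x + 1) * (x + 1) := by exact_mod_cast h4
    nlinarith
  have hxs : (x : ℝ) ≤ √(N : ℝ) := Real.nat_sqrt_le_real_sqrt
  have hE0 : (0 : ℝ) ≤ energy p M := Nat.cast_nonneg _
  calc (energy p M : ℝ) * N ≤ energy p M * (4 * (x : ℝ) ^ 2) := mul_le_mul_of_nonneg_left hNx hE0
    _ ≤ (Pool.Agent.H373R2.T7.energy p x (fun m => (X ^ 2 : ℤ[X]).eval (m : ℤ)) : ℝ) * (4 * (x : ℝ) ^ 2) :=
        mul_le_mul_of_nonneg_right h1 (by positivity)
    _ = 4 * ((Pool.Agent.H373R2.T7.energy p x (fun m => (X ^ 2 : ℤ[X]).eval (m : ℤ)) : ℝ) * (x : ℝ) ^ 2) := by ring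
    _ ≤ 4 * (C0 * (x : ℝ) ^ (2 * p)) := by linarith
    _ ≤ 4 * (C0 * (L ^ K * #M) ^ (2 * p)) := by
        have h5 : (x : ℝ) ^ (2 * p) ≤ (L ^ K * #M) ^ (2 * p) := pow_le_pow_left₀ (by linarith) (hxs.trans hd) _
        have h6 := mul_le_mul_of_nonneg_left h5 hC0.le
        linarith
    _ = (4 * C0) * (L ^ (2 * p * K) * (#M : ℝ) ^ (2 * p)) := by
        rw [mul_pow, ← pow_mul, mul_comm K (2 * p)]
        ring
    _ ≤ L * (L ^ (2 * p * K) * (#M : ℝ) ^ (2 * p)) := by
        apply mul_le_mul_of_nonneg_right _ (by positivity)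
        linarith
    _ = L ^ (2 * p * K + 1) * (#M : ℝ) ^ (2 * p) := by
        rw [pow_succ]
        ring

end Pool.Agent.Results.MP_d48457_nt.SquaresFromAnySet
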